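import Pool.Agent.Lib.MP_a78e1f_lc.H30.Cm
import Pool.Agent.Lib.MP_a78e1f_lc.H94.Meas
import Pool.Agent.Lib.MP_a78e1f_lc.H20.Rapi
import Pool.Agent.Lib.MP_a78e1f_lc.H62.Reg
import Pool.Agent.Lib.MP_a78e1f_lc.H30.Mix
import Pool.Agent.Lib.MP_a78e1f_lc.H59.Rcc
import Pool.Agent.Lib.MP_a78e1f_lc.H95.Rep
import Pool.Agent.Lib.MP_a78e1f_lc.H22.Kap
import Pool.Agent.Lib.MP_a78e1f_lc.H71.Mq
import Pool.Agent.Lib.MP_a78e1f_lc.H74.Rfm
import Pool.Agent.Lib.MP_a78e1f_lc.H87.Pir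
import Pool.Agent.Lib.MP_a78e1f_lc.H30.Regx
import Pool.Agent.Lib.MP_a78e1f_lc.H9.Evx
import Pool.Agent.Lib.MP_a78e1f_lc.H45.Evf
import Pool.Agent.Lib.MP_a78e1f_lc.H95.Rsel
import Pool.Agent.Lib.MP_a78e1f_lc.H63.Dix
import Pool.Agent.Lib.MP_a78e1f_lc.H95.Ver
import Pool.Agent.Lib.MP_a78e1f_lc.H16.Seqx
import Pool.Agent.Lib.MP_a78e1f_lc.H23.Prxi
import Pool.Agent.Lib.MP_a78e1f_lc.H40.Prxe
import Pool.Agent.Lib.MP_a78e1f_lc.H65.Gndmx
import Pool.Agent.Lib.MP_a78e1f_lc.H76.Lpl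
import Pool.Agent.Lib.MP_a78e1f_lc.H53.Ltree
import Pool.Agent.Lib.MP_a78e1f_lc.H53.Rka
import Pool.Agent.Lib.MP_a78e1f_lc.H9.Sysl
import Pool.Agent.Lib.MP_a78e1f_lc.H63.Cod
import Pool.Agent.Lib.MP_a78e1f_lc.H63.Prom
import Pool.Agent.Lib.MP_a78e1f_lc.H4.Brn
import Pool.Agent.Lib.MP_a78e1f_lc.H50.Keyn
import Pool.Agent.Lib.MP_a78e1f_lc.H30.Ccvp
import Pool.Agent.Lib.MP_a78e1f_lc.H57.Exi
import Pool.Agent.Lib.MP_a78e1f_lc.H57.Ind
import Pool.Agent.Lib.MP_a78e1f_lc.H22.Kcn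
import Pool.Agent.Lib.MP_a78e1f_lc.H14.Vu

/-!
# Assembly, part 1
-/

universe u v w

namespace Pool.Agent.Lib.MP_a78e1f_lc.All

theorem cm : CmStatement := H30.cm_module
theorem meas : MeasStatement.{u} := H94.meas cm
theorem rapi : RapiStatement.{u} := H20.rapi
theorem reg : RegStatement.{u} := H62.reg
theorem mix : MixStatement.{u} := H30.mix reg meas
theorem rcc : RccStatement.{u} := H59.rcc mix meas
theorem rep : RepStatement.{u} := H95.rep rapi rcc meas
theorem kap : KapStatement.{u} := H22.kap rapi rep meas cm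
theorem mq : MqStatement.{u} := H71.mq rep rapi kap meas
theorem rfm : RfmStatement.{u} := H74.rfm rapi rep kap meas mq
theorem pir : PirStatement.{u, w} := H87.pir mq rfm rep rapi
theorem regx : RegxStatement.{u} := H30.regx reg pir mq rapi rep meas
theorem evx : EvxStatement.{u} := H9.evx cm rapi rep mix meas
theorem evf : EvfStatement.{u} := H45.evf evx rfm rapi
theorem rsel : RselStatement.{u} := H95.rsel reg meas
theorem dix : DixStatement.{u} := H63.dix
theorem seqx : SeqxStatement.{u} := H16.seqx evx dix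
theorem prxi : PrxiStatement.{u} := H23.prxi evx evf dix rfm
theorem prxe : PrxeStatement.{u} := H40.prxe rsel evx rfm
theorem gnd : GndStatement.{u} := H65.gnd
theorem gmx : GmxStatement.{u} := H65.gmx
theorem ltree : LtreeStatement.{u} := H53.ltree
theorem rka : RkaStatement.{u} := H53.rka
theorem cod : CodStatement := H63.cod
theorem prom : PromStatement.{u, w} := H63.prom
theorem brn : BrnStatement.{u} := H4.brn
theorem keyn : KeynStatement.{u} := H50.keyn cm meas kap rfm evx dix gnd cod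
theorem ccvp : CcvpStatement.{u} := H30.ccvp
theorem exi : ExiStatement.{u} := H57.exi
theorem ind : IndStatement.{u} := H57.ind
theorem kcn : KcnStatement.{u} := H22.kcn

end Pool.Agent.Lib.MP_a78e1f_lc.All
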