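import Pool.Agent.Lib.MP_a78e1f_lc.K.Iface
import Pool.Agent.Lib.MP_6d445e_gt.H20.Idw
import Pool.Agent.Lib.MP_e6fef2_lc.V.Assembly

/-!
# The final step
-/

universe u v w

open Cardinal Filter MeasureTheory

namespace Pool.Agent.Lib.MP_a78e1f_lc

open Pool.Agent.Lib.MP_100a6c_lc
open Pool.Agent.Lib.MP_c5d73d_lc.F (ZFC)
open Pool.Agent.Lib.MP_e6fef2_lc
open Pool.Agent.Lib.MP_6d445e_gt (Idw Ult ae IsMil)

/-- The conclusion for the family `𝒯` and the well-order `I`. -/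
def Concl (𝒯 : Set (List ℕ) → Prop) (I : Type u) [LinearOrder I] : Prop :=
  (∃ (A : I → Type u) (_ : ∀ i, CompleteBooleanAlgebra (A i)) (f : ∀ i j, A i → A j)
    (B : Type u) (_ : CompleteBooleanAlgebra B) (e : ∀ i, A i → B), CSI 𝒯 A f B e) ∧
  ∀ (A : I → Type u) [∀ i, CompleteBooleanAlgebra (A i)] (f : ∀ i j, A i → A j) (B : Type u)
    [CompleteBooleanAlgebra B] (e : ∀ i, A i → B), CSI 𝒯 A f B e →
      (⊥ : B) ≠ ⊤ ∧ ZFC (VB B) = ⊤ ∧ UAX (VB B) = ⊥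

theorem pres_prx (h1 : PrxcStatement.{u}) (h2 : PrxiStatement.{u}) (h3 : PrxeStatement.{u})
    (h4 : PrxlimStatement.{u}) : Pres.{u} (fun A C _ _ (f : A → C) => PRX f) where
  comp A B C _ _ _ f g hf hg := h1 A B C f g hf hg
  iso A B _ _ f hf hs := h2 A B f hf hs
  pe A B _ _ f hf h := h3 A B f hf h
  lim L _ A _ f C _ e a b c d := h4 L A f C e a b c d

theorem pres_press (h1 : PrcfStatement.{u}) (h2 : PrifStatement.{u})
    (h4 : PrlimfStatement.{u}) : Pres.{u} (fun A C _ _ (f : A → C) => PRESS f) where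
  comp A B C _ _ _ f g hf hg := h1 A B C f g hf hg
  iso A B _ _ f hf hs := (h2 A B f hf).1 hs
  pe A B _ _ f hf h := (h2 A B f hf).2 h
  lim L _ A _ f C _ e a b c d := h4 L A f C e a b c d

theorem concl_ml (hexi : ExiStatement.{u}) (hind : IndStatement.{u})
    (hpr : Pres.{u} (fun A C _ _ (f : A → C) => PRX f))
    (htne : TneStatement.{u}) (hvu : VuStatement.{u}) {𝒯 : Set (List ℕ) → Prop}
    (hfam : TFam 𝒯) (hst : StS.{u} 𝒯) (hbit : Bit.{u} 𝒯)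
    (hprx : ∀ (A : Type u) [CompleteBooleanAlgebra A], PRX (tE 𝒯 A))
    (κ : Cardinal.{u}) (I : Type u) [LinearOrder I] [WellFoundedLT I] [Nonempty I]
    (hI : Idw κ I) : Concl 𝒯 I := by
  refine ⟨hexi 𝒯 hfam I, ?_⟩
  intro A _ f B _ e hC
  obtain ⟨-, -, -, -, hB, hne⟩ := hind _ hpr 𝒯 hfam hprx I A f B e hC
  exact ⟨hne, zfc_top B, hvu B hB (htne κ I hI 𝒯 hfam hst hbit hprx A f B e hC)⟩

theorem concl_s (hexi : ExiStatement.{u}) (hind : IndStatement.{u})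
    (hpr : Pres.{u} (fun A C _ _ (f : A → C) => PRESS f))
    (htne : TnesStatement.{u}) (hvu : VuStatement.{u})
    (hfam : TFam IsSac) (hbit : Bit.{u} IsSac)
    (hprs : PrsacStatement.{u})
    (κ : Cardinal.{u}) (I : Type u) [LinearOrder I] [WellFoundedLT I] [Nonempty I]
    (hI : Idw κ I) : Concl IsSac I := by
  refine ⟨hexi IsSac hfam I, ?_⟩
  intro A _ f B _ e hC
  obtain ⟨-, -, -, -, hB, hne⟩ := hind _ hpr IsSac hfam (fun A _ => hprs A) I A f B e hC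
  exact ⟨hne, zfc_top B, hvu B hB (htne κ I hI hbit A f B e hC)⟩

/-- The order type of a regular cardinal. -/
theorem idw_of (κ : Cardinal.{u}) (h1 : κ.IsRegular) (h2 : ℵ₀ < κ) (h3 : ∀ c < κ, c ^ ℵ₀ < κ) :
    Idw κ κ.ord.ToType :=
  ⟨by simp, h1, h2, h3, fun i => Cardinal.mk_Iio_toType_ord_lt i⟩

theorem nonempty_of (κ : Cardinal.{u}) (h2 : ℵ₀ < κ) : Nonempty κ.ord.ToType := by
  rw [← mk_ne_zero_iff, mk_toType, card_ord]
  exact (aleph0_pos.trans h2).ne'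

/-- Under CH the cardinal `ℵ₂` has the required properties. -/
theorem aleph2_of (h : (2 : Cardinal.{u}) ^ ℵ₀ = ℵ₁) :
    (ℵ_ 2 : Cardinal.{u}).IsRegular ∧ ℵ₀ < (ℵ_ 2 : Cardinal.{u}) ∧
      ∀ c < (ℵ_ 2 : Cardinal.{u}), c ^ ℵ₀ < ℵ_ 2 := by
  have h12 : (ℵ_ 2 : Cardinal.{u}) = Order.succ ℵ₁ := by
    rw [← aleph_succ]
    congr 1
    rw [← Ordinal.add_one_eq_succ]
    norm_num
  have h0 : (ℵ₀ : Cardinal.{u}) ≤ ℵ₁ := aleph0_le_aleph 1
  refine ⟨?_, ?_, ?_⟩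
  · rw [h12]
    exact isRegular_succ h0
  · rw [h12]
    exact Order.lt_succ_iff.2 h0
  · intro c hc
    rw [h12] at hc ⊢
    have h1 : c ≤ 2 ^ ℵ₀ := by
      rw [h]
      exact Order.lt_succ_iff.1 hc
    refine Order.lt_succ_iff.2 ?_
    refine (power_le_power_right h1).trans ?_
    rw [← power_mul, aleph0_mul_aleph0, h]

end Pool.Agent.Lib.MP_a78e1f_lc
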