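import Pool.Agent.Lib.MP_a78e1f_lc.All1
import Pool.Agent.Lib.MP_a78e1f_lc.Final
import Pool.Agent.Lib.MP_a78e1f_lc.H46.Fam
import Pool.Agent.Lib.MP_a78e1f_lc.H76.Sysm
import Pool.Agent.Lib.MP_a78e1f_lc.H76.Trm
import Pool.Agent.Lib.MP_a78e1f_lc.H72.Trl
import Pool.Agent.Lib.MP_a78e1f_lc.H72.St
import Pool.Agent.Lib.MP_a78e1f_lc.H3.Rkb
import Pool.Agent.Lib.MP_a78e1f_lc.H65.Prxt
import Pool.Agent.Lib.MP_a78e1f_lc.H34.Prxlim
import Pool.Agent.Lib.MP_a78e1f_lc.H84.Prxc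
import Pool.Agent.Lib.MP_a78e1f_lc.H84.Seqf
import Pool.Agent.Lib.MP_a78e1f_lc.H82.Sml
import Pool.Agent.Lib.MP_a78e1f_lc.H82.Rlb
import Pool.Agent.Lib.MP_a78e1f_lc.H70.Col
import Pool.Agent.Lib.MP_a78e1f_lc.H70.Vf
import Pool.Agent.Lib.MP_a78e1f_lc.H86.Vz
import Pool.Agent.Lib.MP_a78e1f_lc.H97.Vc
import Pool.Agent.Lib.MP_a78e1f_lc.H97.Prif
import Pool.Agent.Lib.MP_a78e1f_lc.H57.Dmt
import Pool.Agent.Lib.MP_a78e1f_lc.H57.Prsac
import Pool.Agent.Lib.MP_a78e1f_lc.H57.Prlimf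
import Pool.Agent.Lib.MP_a78e1f_lc.H9.Sackp
import Pool.Agent.Lib.MP_a78e1f_lc.H9.Sab
import Pool.Agent.Lib.MP_a78e1f_lc.H18.News
import Pool.Agent.Lib.MP_a78e1f_lc.H87.Saa
import Pool.Agent.Lib.MP_a78e1f_lc.H30.Itp2f
import Pool.Agent.Lib.MP_a78e1f_lc.H74.Prcf
import Pool.Agent.Lib.MP_a78e1f_lc.H45.Trsac

/-!
# Assembly, part 2
-/

universe u v w

namespace Pool.Agent.Lib.MP_a78e1f_lc.All

open Pool.Agent.Lib.MP_6d445e_gt (IsMil)

theorem fam : FamStatement := H46.fam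
theorem ver : VerStatement.{u} := H95.ver evx rapi kap meas
theorem trm : TrmStatement.{u} := H76.trm ltree gnd gmx fam
theorem trl : TrlStatement.{u} := H72.trl fam gnd gmx ltree
theorem lpl : LplStatement.{u} := H76.lpl gnd gmx fam Pool.Agent.Lib.MP_6d445e_gt.H21.disj
theorem rkb : RkbStatement.{u} := H3.rkb lpl gnd gmx (pir.{u, 0}) mq rep rapi kap rfm meas fam
theorem sysl : SyslStatement.{u} := H9.sysl rka rkb lpl pir regx kap fam gnd
theorem sysm : SysmStatement.{u} :=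
  H76.sysm pir rfm regx kap gnd gmx fam Pool.Agent.Lib.MP_6d445e_gt.W.All.lp
theorem prxt : PrxtStatement.{u} :=
  H65.prxt ver seqx evx dix rfm kap rapi rep gmx gnd Pool.Agent.Lib.MP_6d445e_gt.H95.lb
    Pool.Agent.Lib.MP_6d445e_gt.W.All.itp Pool.Agent.Lib.MP_6d445e_gt.H82.sla
theorem prxlim : PrxlimStatement.{u} :=
  H34.prxlim rapi rep kap rfm regx (pir.{u, u}) evx dix ver seqx
theorem prxc : PrxcStatement.{u} := H84.prxc evx rfm
theorem st : StStatement.{u} :=
  H72.st ver evx dix rfm kap rapi rep meas cm gnd gmx cod prom brn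
theorem dmt : DmtStatement.{u} := H57.dmt gnd gmx fam
theorem sml : SmlStatement.{u} := H82.sml dmt
theorem rlb : RlbStatement.{u} := H82.rlb
theorem col : ColStatement.{u} := H70.col
theorem vz : VzStatement.{u} := H86.vz
theorem vc : VcStatement.{u} := H97.vc
theorem vf : VfStatement.{u} := H70.vf vc
theorem vu : VuStatement.{u} := H14.vu vz vc vf ccvp
theorem saa : SaaStatement := H87.saa
theorem sch : SchStatement := H87.sch
theorem sab : SabStatement.{u} := H9.sab saa sch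
theorem news : NewsStatement.{u} := H18.news gnd gmx fam
theorem itp2f : Itp2fStatement.{u} := H30.itp2f
theorem trsac : TrsacStatement.{u} := H45.trsac gnd gmx fam

theorem presPrx : Pres.{u} (fun A C _ _ (f : A → C) => PRX f) := pres_prx prxc prxi prxe prxlim

theorem trsMil : Trs.{u} IsMil fun t t' => t <+: t' := trm
theorem trsLav : Trs.{u} IsLav fun t t' => t = t' := trl
theorem sysMil : HasSys.{u} IsMil fun t t' => t <+: t' := sysm
theorem sysLav : HasSys.{u} IsLav fun t t' => t = t' := sysl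

theorem stMil : StS.{u} IsMil := st IsMil (fun t t' => t <+: t') fam.1 (fun _ _ h => h) trsMil sysMil
theorem stLav : StS.{u} IsLav :=
  st IsLav (fun t t' => t = t') fam.2.1 (fun _ _ h => by subst h; exact List.prefix_refl _) trsLav sysLav

theorem prxMil (A : Type u) [CompleteBooleanAlgebra A] : PRX (tE IsMil A) :=
  prxt IsMil (fun t t' => t <+: t') fam.1 (fun _ _ h => h) trsMil sysMil A
theorem prxLav (A : Type u) [CompleteBooleanAlgebra A] : PRX (tE IsLav A) :=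
  prxt IsLav (fun t t' => t = t') fam.2.1 (fun _ _ h => by subst h; exact List.prefix_refl _) trsLav sysLav A

end Pool.Agent.Lib.MP_a78e1f_lc.All
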