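import Pool.Agent.Lib.MP_a78e1f_lc.All2
import Pool.Agent.Lib.MP_a78e1f_lc.H15.Bits
import Pool.Agent.Lib.MP_a78e1f_lc.H43.Lbf
import Pool.Agent.Lib.MP_a78e1f_lc.H92.Itpf
import Pool.Agent.Lib.MP_a78e1f_lc.H72.Tnes
import Pool.Agent.Lib.MP_a78e1f_lc.H72.Tne

/-!
# Assembly, part 3
-/

universe u v w

open Cardinal

namespace Pool.Agent.Lib.MP_a78e1f_lc.All

open Pool.Agent.Lib.MP_100a6c_lc (VB)
open Pool.Agent.Lib.MP_c5d73d_lc.F (ZFC)
open Pool.Agent.Lib.MP_6d445e_gt (IsMil Idw)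

theorem bits : BitsStatement.{u} := H15.bits gnd gmx fam
theorem itpf : ItpfStatement.{u} := H92.itpf
theorem lbf : LbfStatement.{u} := H43.lbf
theorem seqf : SeqfStatement.{u} := H84.seqf itpf
theorem prcf : PrcfStatement.{u} := H74.prcf itpf lbf itp2f
theorem prif : PrifStatement.{u} := H97.prif itpf
theorem prlimf : PrlimfStatement.{u} := H57.prlimf seqf itpf lbf itp2f
theorem prsac : PrsacStatement.{u} := H57.prsac trsac seqf itpf lbf gnd gmx fam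
theorem sackp : SackpStatement.{u} := H9.sackp itpf lbf
theorem presPress : Pres.{u} (fun A C _ _ (f : A → C) => PRESS f) := pres_press prcf prif prlimf
theorem tnes : TnesStatement.{u} :=
  H72.tnes ind sml kcn rlb col prcf prif prlimf prsac sackp sab news fam meas cm

theorem tne : TneStatement.{u} :=
  H72.tne keyn ind sml kcn rlb col prxc prxi prxe prxlim meas cm

theorem main (κ : Cardinal.{u})
    (hκ : ((2 : Cardinal.{u}) ^ ℵ₀ = ℵ₁ ∧ κ = ℵ_ 2) ∨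
      (κ.IsRegular ∧ ℵ₀ < κ ∧ ∀ c < κ, c ^ ℵ₀ < κ))
    (𝒯 : Set (List ℕ) → Prop) (h𝒯 : 𝒯 = IsSac ∨ 𝒯 = IsMil ∨ 𝒯 = IsLav) :
    (∃ (A : κ.ord.ToType → Type u) (_ : ∀ i, CompleteBooleanAlgebra (A i))
      (f : ∀ i j, A i → A j) (B : Type u) (_ : CompleteBooleanAlgebra B) (e : ∀ i, A i → B),
        CSI 𝒯 A f B e) ∧
    ∀ (A : κ.ord.ToType → Type u) [∀ i, CompleteBooleanAlgebra (A i)] (f : ∀ i j, A i → A j)
      (B : Type u) [CompleteBooleanAlgebra B] (e : ∀ i, A i → B), CSI 𝒯 A f B e →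
        (⊥ : B) ≠ ⊤ ∧ ZFC (VB B) = ⊤ ∧ UAX (VB B) = ⊥ := by
  have h1 : κ.IsRegular ∧ ℵ₀ < κ ∧ ∀ c < κ, c ^ ℵ₀ < κ := by
    rcases hκ with ⟨h, rfl⟩ | h
    · exact aleph2_of h
    · exact h
  have hI : Idw κ κ.ord.ToType := idw_of κ h1.1 h1.2.1 h1.2.2
  have hne : Nonempty κ.ord.ToType := nonempty_of κ h1.2.1
  rcases h𝒯 with rfl | rfl | rfl
  · exact concl_s exi ind presPress tnes vu fam.2.2 bits.2.2 prsac κ _ hI
  · exact concl_ml exi ind presPrx tne vu fam.1 stMil bits.1 prxMil κ _ hI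
  · exact concl_ml exi ind presPrx tne vu fam.2.1 stLav bits.2.1 prxLav κ _ hI

end Pool.Agent.Lib.MP_a78e1f_lc.All
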