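import Pool.Agent.Lib.MP_6d445e_gt.W.All1
import Mathlib.Probability.ProductMeasure
import Mathlib.Probability.Distributions.Uniform

/-!
# The random extension of a complete Boolean algebra

`RA A` is the algebra of the iteration `A * (random forcing)`.  It is the algebra of measurable sets of
pairs (ultrafilter of `A`, point of the Cantor space) modulo null sets.  A name `X : ℕ → A` of a point
of the Cantor space gives an evaluation `ev X : RA A → A`.
-/

universe u v w

open Cardinal Filter MeasureTheory

namespace Pool.Agent.Lib.MP_a78e1f_lc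

open Pool.Agent.Lib.MP_100a6c_lc
open Pool.Agent.Lib.MP_c5d73d_lc.F (pr)
open Pool.Agent.Lib.MP_e6fef2_lc
open Pool.Agent.Lib.MP_6d445e_gt

/-- The Cantor space. -/
abbrev Cs : Type := ℕ → Bool

/-- The measure of the Cantor space. -/
noncomputable def cm : Measure Cs :=
  Measure.infinitePi fun _ : ℕ => (PMF.uniformOfFintype Bool).toMeasure

/-- The first `n` digits of `x`. -/
def res (x : Cs) (n : ℕ) : List Bool := (List.range n).map x

/-- One of the lists is an initial segment of the other one. -/
def Cpb (s t : List Bool) : Prop := s <+: t ∨ t <+: s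

section

variable (A : Type u) [CompleteBooleanAlgebra A]

/-- Pairs of an ultrafilter and a point of the Cantor space. -/
abbrev Pt : Type u := Ult A × Cs

variable {A}

/-- The section of `E` at `g`. -/
def sec (E : Set (Pt A)) (g : Ult A) : Set Cs := {x | (g, x) ∈ E}

/-- `E` is null. -/
def nl (E : Set (Pt A)) : Prop := ∀ᶠ g in ae A, cm (sec E g) = 0

theorem nl_mono {E F : Set (Pt A)} (h : E ⊆ F) (hF : nl F) : nl E := by
  refine Filter.Eventually.mono hF fun g hg => ?_
  exact measure_mono_null (fun x hx => h hx) hg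

theorem nl_union {E F : Set (Pt A)} (hE : nl E) (hF : nl F) : nl (E ∪ F) := by
  filter_upwards [hE, hF] with g h1 h2
  exact measure_union_null h1 h2

variable (A) in
/-- Measurable sets which are not null. -/
def Po : Type u := {E : Set (Pt A) // MeasurableSet E ∧ ¬ nl E}

instance : Preorder (Po A) where
  le E F := nl (E.1 \ F.1)
  le_refl E := by
    refine Filter.Eventually.of_forall fun g => ?_
    have : sec (E.1 \ E.1) g = ∅ := by
      ext x
      simp [sec]
    rw [this]
    exact measure_empty
  le_trans E F G h h' := by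
    refine nl_mono ?_ (nl_union h h')
    intro p hp
    by_cases hF : p ∈ F.1
    · exact Or.inr ⟨hF, hp.2⟩
    · exact Or.inl ⟨hp.1, hF⟩

variable (A) in
/-- The algebra of `A * (random forcing)`. -/
abbrev RA : Type u := H1.RO (Po A)

/-- The element of `RA A` given by a set. -/
noncomputable def mkR (E : Set (Pt A)) : RA A := ⨆ p : {p : Po A // nl (p.1 \ E)}, pr p.1

open Classical in
/-- The Boolean value of a property of ultrafilters. -/
noncomputable def bv (P : Ult A → Prop) : A :=
  if h : ∃ a : A, ∀ᶠ g in ae A, a ∈ g ↔ P g then h.choose else ⊥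

open Classical in
/-- A measurable set which represents an element of `RA A`. -/
noncomputable def rep (r : RA A) : Set (Pt A) :=
  if h : ∃ E : Set (Pt A), MeasurableSet E ∧ mkR E = r then h.choose else ∅

/-- The embedding of `A` into `RA A`. -/
noncomputable def kap (a : A) : RA A := mkR {p | a ∈ p.1}

/-- The Boolean value of: the measure of `r` is greater than `q`. -/
noncomputable def mq (r : RA A) (q : ℝ) : A := bv fun g => q < cm.real (sec (rep r) g)

/-- A cylinder. -/
def cyl (σ : List Bool) : Set (Pt A) := {p | res p.2 σ.length = σ}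

/-- The element of `RA A` of a cylinder. -/
noncomputable def cy (σ : List Bool) : RA A := mkR (cyl σ)

/-- The closed set with code `ε`: the cylinder of `σ` is removed if `ε σ ∈ g`. -/
def Kc (ε : List Bool → A) : Set (Pt A) := {p | ∀ n, ε (res p.2 n) ∉ p.1}

/-- The element of `RA A` of a closed set. -/
noncomputable def cl (ε : List Bool → A) : RA A := mkR (Kc ε)

/-- The closed set with code `ε` is disjoint from `E`. -/
def Avd (ε : List Bool → A) (E : Set (Pt A)) : Prop :=
  ∀ᶠ g in ae A, ∀ x : Cs, (g, x) ∈ Kc ε → (g, x) ∉ E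

open Classical in
/-- The value of the name of a point of the Cantor space. -/
noncomputable def vx (X : ℕ → A) (g : Ult A) : Cs := fun n => decide (X n ∈ g)

/-- The Boolean value of: the pair (generic ultrafilter, `X`) is in `r`. -/
noncomputable def ev (X : ℕ → A) (r : RA A) : A := bv fun g => (g, vx X g) ∈ rep r

/-- The Boolean value of: the generic ultrafilter is generic over `N` and `X` is random over
the extension of `N`. -/
noncomputable def rn (N : Set El.{u}) (X : ℕ → A) : A :=
  gen A N ⊓ ⨅ E : Set (Pt A), ⨅ _ : In N E, ⨅ _ : MeasurableSet E, ⨅ _ : nl E,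
    (bv fun g => (g, vx X g) ∈ E)ᶜ

/-- The Boolean value of: `x` (evaluated at `X`) and `Y` have no common point `(p, i)` with
`n ≤ p`. -/
noncomputable def disX (n : ℕ) (x : ℕ → RA A) (Y X : ℕ → A) : A :=
  ⨅ p, ⨅ _ : n ≤ p, ⨅ i, (ev X (x (Nat.pair p i)) ⊓ Y (Nat.pair p i))ᶜ

/-- The Boolean value of: the generic ultrafilter is generic over `N`, `X` is random over the
extension, and `Y` avoids all slaloms of the extension of `N` by the generic ultrafilter and `X`. -/
noncomputable def gcX (N : Set El.{u}) (X Y : ℕ → A) : A :=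
  rn N X ⊓ cut Y ⊓ ⨅ x : ℕ → RA A, ⨅ _ : In N x, ⨅ _ : Sl x, ⨆ n, disX n x Y X

/-- The Boolean value of: `σ` is an initial segment of `x`. -/
def pre (x : ℕ → A) (σ : List Bool) : A :=
  ⨅ n, ⨅ h : n < σ.length, if σ[n] then x n else (x n)ᶜ

/-- The Boolean value of: the names `x` and `y` have the same value. -/
def eqr (x y : ℕ → A) : A := ⨅ n, (x n ⊓ y n) ⊔ ((x n)ᶜ ⊓ (y n)ᶜ)

end

section

variable {A C : Type u} [CompleteBooleanAlgebra A] [CompleteBooleanAlgebra C]

/-- The preimage of a set of pairs. -/
def pulls (f : A → C) (E : Set (Pt A)) : Set (Pt C) :=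
  {p | ∃ g : Ult A, (∀ a, a ∈ g ↔ f a ∈ p.1) ∧ (g, p.2) ∈ E}

/-- The extension of `f` to the random extensions. -/
noncomputable def rmap (f : A → C) (r : RA A) : RA C := mkR (pulls f (rep r))

/-- The extension of an additive map `π : C → A` to the random extensions. -/
noncomputable def piR (f : A → C) (π : C → A) (e : RA C) : RA A :=
  (sSup {r : RA A | ∀ q : ℝ, 0 < q → π (mq (e ⊓ rmap f r) q) = ⊥})ᶜ

/-- `C` is an extension of `A` which preserves good pairs `X`, `Y`. -/
def PRX (f : A → C) : Prop :=
  ∀ᶠ N in club, ∀ (X Y : ℕ → A) (e : RA C) (x : ℕ → RA C) (z : ℕ → RA A), In N e → In N x →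
    Sl x → In N z →
    gcX N X Y ⊓ ev X (itp (rmap f) (prj (rmap f)) e x z) ⊓ disX 0 z Y X ≤
      prj f (gcX N (fun n => f (X n)) (fun n => f (Y n)) ⊓ ev (fun n => f (X n)) e ⊓
        disX 0 x (fun n => f (Y n)) fun n => f (X n))

end

end Pool.Agent.Lib.MP_a78e1f_lc
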